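import Pool.Agent.E8helper61.Mag.Defs

/-! (C1) The sign vectors of a finite family of linear forms form a covector system. -/

set_option linter.unusedSectionVars false

namespace H61Mag

open Filter Topology

section

variable {ι : Type*} [Fintype ι] [DecidableEq ι]

theorem small_c1 (a b : ι → ℝ) : ∃ ε > 0, ∀ i, a i ≠ 0 → |ε * b i| < |a i| := by
  have h : ∀ i, ∀ᶠ ε in 𝓝[>] (0:ℝ), a i ≠ 0 → |ε * b i| < |a i| := by
    intro i
    by_cases hi : a i = 0
    · simp [hi]
    · have hc : ContinuousAt (fun ε : ℝ => |ε * b i|) 0 := by fun_prop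
      have h0 : |(0:ℝ) * b i| < |a i| := by simpa using hi
      have h3 : ∀ᶠ ε in 𝓝 (0:ℝ), |ε * b i| < |a i| := hc.eventually_lt continuousAt_const h0
      have h4 : ∀ᶠ ε in 𝓝[>] (0:ℝ), |ε * b i| < |a i| := nhdsWithin_le_nhds h3
      exact h4.mono fun ε hε _ => hε
  obtain ⟨ε, h1, h2⟩ := ((eventually_all.2 h).and self_mem_nhdsWithin).exists
  exact ⟨ε, h2, h1⟩

theorem sign_add_small {a b : ℝ} (h : |b| < |a|) : SignType.sign (a + b) = SignType.sign a := by
  rcases lt_trichotomy a 0 with ha | ha | ha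
  · rw [abs_of_neg ha] at h
    have := (abs_lt.1 h)
    rw [sign_neg ha, sign_neg (by linarith)]
  · subst ha; simp at h; exact absurd h (not_lt.2 (abs_nonneg _))
  · rw [abs_of_pos ha] at h
    have := (abs_lt.1 h)
    rw [sign_pos ha, sign_pos (by linarith)]

theorem sign_eq_of_mul_pos {a b : ℝ} (h : 0 < a * b) : SignType.sign a = SignType.sign b := by
  rcases pos_and_pos_or_neg_and_neg_of_mul_pos h with ⟨h1, h2⟩ | ⟨h1, h2⟩
  · rw [sign_pos h1, sign_pos h2]
  · rw [sign_neg h1, sign_neg h2]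

theorem mul_pos_of_sign_eq {a b : ℝ} (h : SignType.sign a = SignType.sign b) (hb : b ≠ 0) :
    0 < a * b := by
  rcases lt_or_gt_of_ne hb with hb | hb
  · rw [sign_neg hb] at h
    exact mul_pos_of_neg_of_neg (sign_eq_neg_one_iff.1 h) hb
  · rw [sign_pos hb] at h
    exact mul_pos (sign_eq_one_iff.1 h) hb

variable {E : Type*} [AddCommGroup E] [Module ℝ E] (f : ι → Module.Dual ℝ E)

theorem mem_z_sgn {v : E} {i : ι} : i ∈ z (sgn f v) ↔ f i v = 0 := by
  simp [z, sgn]

theorem mem_sep_sgn {x y : E} {i : ι} (h : f i x = 0 ↔ f i y = 0) :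
    i ∈ sep (sgn f x) (sgn f y) ↔ f i x * f i y < 0 := by
  simp only [sep, sgn, Finset.mem_filter, Finset.mem_univ, true_and, ne_eq]
  constructor
  · intro hne
    by_cases h0 : f i y = 0
    · exact absurd (by rw [h.2 h0, h0]) hne
    · have h1 : f i x ≠ 0 := fun h' => h0 (h.1 h')
      rcases lt_or_gt_of_ne (mul_ne_zero h1 h0) with h2 | h2
      · exact h2
      · exact absurd (sign_eq_of_mul_pos h2) hne
  · intro hlt heq
    have h0 : f i y ≠ 0 := by
      rintro h'; rw [h', mul_zero] at hlt; exact lt_irrefl _ hlt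
    exact absurd (mul_pos_of_sign_eq heq h0) (not_lt.2 hlt.le)

/-- the candidates for a wall -/
def Cand (x zz y : E) : Prop :=
  (∀ i, f i y = 0 ∨ 0 < f i y * f i zz) ∧ (∀ i, f i zz = 0 → f i y = 0) ∧
  (∃ i, f i zz ≠ 0 ∧ f i y = 0) ∧ (∀ i, f i y = 0 → f i zz ≠ 0 → f i x * f i zz < 0)

theorem cand_exists (x zz : E) (hz : ∀ i, f i x = 0 ↔ f i zz = 0)
    (hne : ∃ i, f i x * f i zz < 0) : ∃ y, Cand f x zz y := by
  classical
  set S : Finset ι := Finset.univ.filter (fun i => f i x * f i zz < 0) with hS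
  have hSne : S.Nonempty := by
    obtain ⟨i, hi⟩ := hne
    exact ⟨i, by simp [hS, hi]⟩
  -- crossing time: t_i = f_i zz / (f_i zz - f_i x)
  obtain ⟨i0, hi0, hmin⟩ := S.exists_min_image (fun i => f i zz / (f i zz - f i x)) hSne
  have hi0' : f i0 x * f i0 zz < 0 := by simpa [hS] using hi0
  set t : ℝ := f i0 zz / (f i0 zz - f i0 x) with ht
  have key : ∀ i, f i x * f i zz < 0 → 0 < (f i zz - f i x) * f i zz := by
    intro i hi
    nlinarith [sq_nonneg (f i zz)]
  have hrat : ∀ i, f i x * f i zz < 0 →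
      0 < f i zz / (f i zz - f i x) ∧ f i zz / (f i zz - f i x) < 1 := by
    intro i hi
    have h1 := key i hi
    have hzne : f i zz ≠ 0 := by rintro h'; rw [h', mul_zero] at hi; exact lt_irrefl _ hi
    rcases lt_or_gt_of_ne hzne with h2 | h2
    · have h3 : f i zz - f i x < 0 := by
        by_contra hcon
        push Not at hcon
        nlinarith
      have h4 : 0 < f i x := by nlinarith
      constructor
      · exact div_pos_of_neg_of_neg h2 h3
      · rw [div_lt_one_of_neg h3]; linarith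
    · have h3 : 0 < f i zz - f i x := by
        by_contra hcon
        push Not at hcon
        nlinarith
      have h4 : f i x < 0 := by nlinarith
      constructor
      · exact div_pos h2 h3
      · rw [div_lt_one h3]; linarith
  have ht0 : 0 < t := (hrat i0 hi0').1
  have ht1 : t < 1 := (hrat i0 hi0').2
  have hfy : ∀ i, f i (zz + t • (x - zz)) = (1 - t) * f i zz + t * f i x := by
    intro i; simp [map_add, map_sub, map_smul]; ring
  have hsame : ∀ i, ¬ f i x * f i zz < 0 → f i zz ≠ 0 →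
      0 < f i (zz + t • (x - zz)) * f i zz := by
    intro i hi h0
    rw [hfy]
    have h1 : 0 < f i zz * f i zz := mul_self_pos.2 h0
    push Not at hi
    nlinarith
  have hcross : ∀ i, f i x * f i zz < 0 → 0 ≤ f i (zz + t • (x - zz)) * f i zz := by
    intro i hi
    have h1 : t ≤ f i zz / (f i zz - f i x) := hmin i (by simp [hS, hi])
    rw [hfy]
    have h2 := key i hi
    have h3 : f i zz - f i x ≠ 0 := by
      rintro h'; rw [h', zero_mul] at h2; exact lt_irrefl _ h2
    have h4 : t * ((f i zz - f i x) * f i zz) ≤ f i zz * f i zz := by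
      calc t * ((f i zz - f i x) * f i zz)
          ≤ (f i zz / (f i zz - f i x)) * ((f i zz - f i x) * f i zz) :=
            mul_le_mul_of_nonneg_right h1 h2.le
        _ = f i zz * f i zz := by field_simp
    nlinarith
  refine ⟨zz + t • (x - zz), ?_, ?_, ?_, ?_⟩
  · intro i
    by_cases h0 : f i zz = 0
    · left; rw [hfy, h0, (hz i).2 h0]; ring
    · by_cases hi : f i x * f i zz < 0
      · rcases (hcross i hi).eq_or_lt with h | h
        · left
          rcases mul_eq_zero.1 h.symm with h | h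
          · exact h
          · exact absurd h h0
        · right; exact h
      · right; exact hsame i hi h0
  · intro i h0; rw [hfy, h0, (hz i).2 h0]; ring
  · refine ⟨i0, ?_, ?_⟩
    · rintro h'; rw [h', mul_zero] at hi0'; exact lt_irrefl _ hi0'
    · rw [hfy, ht]
      have h2 := key i0 hi0'
      have h3 : f i0 zz - f i0 x ≠ 0 := by
        rintro h'; rw [h', zero_mul] at h2; exact lt_irrefl _ h2
      field_simp
      ring
  · intro i hy h0
    by_contra hi
    have := hsame i hi h0
    rw [hy, zero_mul] at this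
    exact lt_irrefl _ this

theorem cand_step (x zz y w : E) (hy : Cand f x zz y) (hw : ∀ i, f i zz = 0 → f i w = 0)
    {i : ι} (hi1 : f i y = 0) (hi2 : f i zz ≠ 0) (hi3 : f i w = 0)
    {j : ι} (hj1 : f j y = 0) (hj2 : f j w * f j zz < 0) :
    ∃ y', Cand f x zz y' ∧ z (sgn f y') ⊂ z (sgn f y) := by
  classical
  obtain ⟨hy1, hy2, hy3, hy4⟩ := hy
  have hjz : f j zz ≠ 0 := by
    rintro h'; rw [h', mul_zero] at hj2; exact lt_irrefl _ hj2
  set C : Finset ι := Finset.univ.filter (fun k => f k y = 0 ∧ f k zz ≠ 0) with hC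
  obtain ⟨j0, hj0, hmax⟩ := C.exists_max_image (fun k => - f k w / f k zz)
    ⟨j, by simp [hC, hj1, hjz]⟩
  have hj0' : f j0 y = 0 ∧ f j0 zz ≠ 0 := by simpa [hC] using hj0
  set lam : ℝ := - f j0 w / f j0 zz with hlam
  have hlpos : 0 < lam := by
    have h1 : - f j w / f j zz ≤ lam := hmax j (by simp [hC, hj1, hjz])
    refine lt_of_lt_of_le ?_ h1
    have h2 : 0 < f j zz * f j zz := mul_self_pos.2 hjz
    have h3 : - f j w / f j zz = (-(f j w * f j zz)) / (f j zz * f j zz) := by
      field_simp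
    rw [h3]
    exact div_pos (by linarith) h2
  have hfv : ∀ k, f k (w + lam • zz) = f k w + lam * f k zz := by
    intro k; simp [map_add, map_smul]
  have hv1 : ∀ k, f k y = 0 → f k zz ≠ 0 → 0 ≤ f k (w + lam • zz) * f k zz := by
    intro k h1 h2
    have h3 : - f k w / f k zz ≤ lam := hmax k (by simp [hC, h1, h2])
    have h4 : 0 < f k zz * f k zz := mul_self_pos.2 h2
    have h5 : - f k w * f k zz ≤ lam * (f k zz * f k zz) := by
      calc - f k w * f k zz = (- f k w / f k zz) * (f k zz * f k zz) := by field_simp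
        _ ≤ _ := mul_le_mul_of_nonneg_right h3 h4.le
    rw [hfv]; nlinarith
  have hv2 : f j0 (w + lam • zz) = 0 := by
    rw [hfv, hlam]
    have := hj0'.2
    field_simp
    ring
  have hv3 : f i (w + lam • zz) ≠ 0 := by
    rw [hfv, hi3, zero_add]
    exact mul_ne_zero hlpos.ne' hi2
  obtain ⟨ε, hε, hsm⟩ := small_c1 (fun k => f k y) (fun k => f k (w + lam • zz))
  have hfy' : ∀ k, f k (y + ε • (w + lam • zz)) = f k y + ε * f k (w + lam • zz) := by
    intro k; rw [map_add, map_smul, smul_eq_mul]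
  have hout : ∀ k, f k y ≠ 0 → 0 < f k (y + ε • (w + lam • zz)) * f k zz := by
    intro k hk
    have h1 := hsm k hk
    have h2 : SignType.sign (f k (y + ε • (w + lam • zz))) = SignType.sign (f k y) := by
      rw [hfy']; exact sign_add_small h1
    have h3 : 0 < f k y * f k zz := (hy1 k).resolve_left hk
    have h4 : f k zz ≠ 0 := by
      rintro h'; rw [h', mul_zero] at h3; exact lt_irrefl _ h3
    refine mul_pos_of_sign_eq ?_ h4
    rw [h2]; exact sign_eq_of_mul_pos h3
  have hsub : ∀ k, f k (y + ε • (w + lam • zz)) = 0 → f k y = 0 := by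
    intro k hk
    by_contra hne
    have := hout k hne
    rw [hk, zero_mul] at this
    exact lt_irrefl _ this
  refine ⟨y + ε • (w + lam • zz), ⟨?_, ?_, ?_, ?_⟩, ?_⟩
  · intro k
    by_cases hk : f k y = 0
    · by_cases hkz : f k zz = 0
      · left
        rw [hfy', hk, hfv, hw k hkz, hkz]; ring
      · have h1 := hv1 k hk hkz
        rw [hfy', hk, zero_add]
        rcases h1.eq_or_lt with h | h
        · left
          rcases mul_eq_zero.1 h.symm with h | h
          · rw [h, mul_zero]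
          · exact absurd h hkz
        · right
          rw [mul_assoc]
          exact mul_pos hε h
    · right; exact hout k hk
  · intro k hkz
    rw [hfy', hy2 k hkz, hfv, hw k hkz, hkz]; ring
  · refine ⟨j0, hj0'.2, ?_⟩
    rw [hfy', hj0'.1, hv2]; ring
  · intro k hk hkz
    exact hy4 k (hsub k hk) hkz
  · rw [Finset.ssubset_iff_of_subset]
    · refine ⟨i, (mem_z_sgn f).2 hi1, ?_⟩
      rw [mem_z_sgn, hfy', hi1, zero_add]
      exact mul_ne_zero hε.ne' hv3
    · intro k hk
      exact (mem_z_sgn f).2 (hsub k ((mem_z_sgn f).1 hk))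

theorem om_sgn : OM (Set.range (sgn f)) := by
  classical
  refine ⟨?_, ?_, ?_⟩
  · rintro _ ⟨v, rfl⟩
    refine ⟨-v, ?_⟩
    funext i
    simp [sgn, Left.sign_neg]
  · rintro _ ⟨x, rfl⟩ _ ⟨y, rfl⟩
    obtain ⟨ε, hε, hsm⟩ := small_c1 (fun k => f k x) (fun k => f k y)
    refine ⟨x + ε • y, ?_⟩
    funext i
    simp only [sgn, comp, sign_eq_zero_iff]
    rw [map_add, map_smul, smul_eq_mul]
    by_cases hi : f i x = 0
    · rw [if_pos hi, hi, zero_add, sign_mul, sign_pos hε, one_mul]
    · rw [if_neg hi]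
      exact sign_add_small (hsm i hi)
  · rintro _ ⟨x, rfl⟩ _ ⟨zz, rfl⟩ hz hne
    have hz' : ∀ i, f i x = 0 ↔ f i zz = 0 := by
      intro i
      rw [← mem_z_sgn f, ← mem_z_sgn f, hz]
    have hne' : ∃ i, f i x * f i zz < 0 := by
      obtain ⟨i, hi⟩ := Function.ne_iff.1 hne
      exact ⟨i, (mem_sep_sgn f (hz' i)).1 (by simp [sep, hi])⟩
    -- a candidate with the smallest zero set
    have hex : ∃ n, ∃ y, Cand f x zz y ∧ (z (sgn f y)).card = n := by
      obtain ⟨y, hy⟩ := cand_exists f x zz hz' hne'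
      exact ⟨_, y, hy, rfl⟩
    obtain ⟨y, hy, hcard⟩ := Nat.find_spec hex
    have hmin : ∀ y', Cand f x zz y' → ¬ z (sgn f y') ⊂ z (sgn f y) := by
      intro y' hy' hlt
      have h1 := Finset.card_lt_card hlt
      rw [hcard] at h1
      exact Nat.find_min hex h1 ⟨y', hy', rfl⟩
    refine ⟨sgn f y, ⟨y, rfl⟩, ?_, ?_, ?_, ?_⟩
    · intro i
      rcases hy.1 i with h | h
      · left; simp [sgn, h]
      · right; exact sign_eq_of_mul_pos h
    · rw [Finset.ssubset_iff_of_subset]
      · obtain ⟨i, hi1, hi2⟩ := hy.2.2.1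
        exact ⟨i, (mem_z_sgn f).2 hi2, fun h => hi1 ((mem_z_sgn f).1 h)⟩
      · intro i hi
        exact (mem_z_sgn f).2 (hy.2.1 i ((mem_z_sgn f).1 hi))
    · intro i hi
      rw [Finset.mem_sdiff, mem_z_sgn, mem_z_sgn] at hi
      exact (mem_sep_sgn f (hz' i)).2 (hy.2.2.2 i hi.1 hi.2)
    · rintro _ ⟨w, rfl⟩ hzw ⟨i, hi, hwi⟩
      rw [Finset.mem_sdiff, mem_z_sgn, mem_z_sgn] at hi
      have hwi' : f i w = 0 := (mem_z_sgn f).1 (by simp [z, hwi])
      have hw : ∀ k, f k zz = 0 → f k w = 0 := fun k hk =>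
        (mem_z_sgn f).1 (hzw ((mem_z_sgn f).2 hk))
      intro j hj
      rw [mem_z_sgn] at hj ⊢
      by_contra hjw
      have hjz : f j zz ≠ 0 := fun h => hjw (hw j h)
      rcases lt_or_gt_of_ne (mul_ne_zero hjw hjz) with h | h
      · obtain ⟨y', hy', hlt⟩ := cand_step f x zz y w hy hw hi.1 hi.2 hwi' hj h
        exact hmin y' hy' hlt
      · obtain ⟨y', hy', hlt⟩ := cand_step f x zz y (-w) hy (fun k hk => by simp [hw k hk])
          hi.1 hi.2 (by simp [hwi']) hj (by simpa using h)
        exact hmin y' hy' hlt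

end

/-- (C1) -/
theorem t_C1 : S_C1 := by
  intro ι _ _ E _ _ f
  exact om_sgn f

end H61Mag
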